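import Pool.Graph.R_pool_sql_team_seeded_620a6dc7.Helper876_Robin.LDom

/-!
# Stability of the ball in the surface area constrained Robin problem
-/

set_option autoImplicit false

open MeasureTheory Set Metric Filter Topology
open scoped ENNReal NNReal InnerProductSpace

namespace Pool.Agent.KS6_36.RB

open Pool.Agent.Helper876.Rob Pool.Agent.Helper876

/-- surface measure of a sphere as a real number -/
theorem surf_ball {n : ℕ} (hn : 2 ≤ n) (c : E n) {R : ℝ} (hR : 0 < R) :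
    surf n (frontier (ball c R)) < ⊤ ∧
    (surf n (frontier (ball c R))).toReal =
      n * volume.real (ball (0 : E n) 1) * R ^ (n - 1) := by
  have : Nontrivial (E n) := by
    have : Nonempty (Fin n) := ⟨⟨0, by omega⟩⟩
    infer_instance
  have hsph : surf n (frontier (ball c R)) =
      ENNReal.ofReal (R ^ (n - 1)) * (n * (volume : Measure (E n)) (ball 0 1)) := by
    rw [frontier_ball c hR.ne']
    exact JS.sphere_mass n hn c R hR
  constructor
  · rw [hsph]
    exact ENNReal.mul_lt_top ENNReal.ofReal_lt_top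
      (ENNReal.mul_lt_top (ENNReal.natCast_lt_top n) measure_ball_lt_top)
  · rw [hsph, ENNReal.toReal_mul, ENNReal.toReal_mul,
      ENNReal.toReal_ofReal (by positivity), ENNReal.toReal_natCast, measureReal_def]
    ring

/-- the isoperimetric inequality in volume form -/
theorem vol_le {n : ℕ} (hn : 2 ≤ n) {Ω : Set (E n)} (hΩ : IsOpen Ω) (hne : Ω.Nonempty)
    (hb : Bornology.IsBounded Ω) (hfin : surf n (frontier Ω) < ⊤) {R : ℝ} (hR : 0 < R)
    (hper : (surf n (frontier Ω)).toReal ≤ n * volume.real (ball (0 : E n) 1) * R ^ (n - 1)) :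
    Pool.Agent.Helper88.Weyl.perimeter Ω ≤
      ENNReal.ofReal (n * volume.real (ball (0 : E n) 1) * R ^ (n - 1)) ∧
    volume.real Ω ≤ volume.real (ball (0 : E n) 1) * R ^ n := by
  have hfinM : IsFiniteMeasure ((surf n).restrict (frontier Ω)) :=
    ⟨by rw [Measure.restrict_apply_univ]; exact hfin⟩
  have hG := half_gg (by omega) hΩ hb hfin
  obtain ⟨L, hL⟩ := surf_supp hb
  have h2 := per_le' (n := n) (σ := (surf n).restrict (frontier Ω)) (by omega) hΩ hne hb hG hL
  rw [measureReal_restrict_apply_univ] at h2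
  have h2' : Pool.Agent.Helper88.Weyl.perimeter Ω ≤
      ENNReal.ofReal (n * volume.real (ball (0 : E n) 1) * R ^ (n - 1)) :=
    h2.trans (ENNReal.ofReal_le_ofReal hper)
  refine ⟨h2', ?_⟩
  obtain ⟨m, rfl⟩ : ∃ m, n = m + 1 := ⟨n - 1, by omega⟩
  have h3 : Pool.Agent.Helper88.Weyl.om (m + 1) = volume.real (ball (0 : E (m + 1)) 1) := by
    have := Pool.Agent.Helper88.Weyl.vol_ball (V := E (m + 1)) (n := m + 1) (by simp) (by omega) 0
      (zero_le_one (α := ℝ))
    rw [this]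
    ring
  have h4 := Pool.Agent.Helper88.Weyl.isoper_vol (n := m) (E := Ω)
    hΩ.measurableSet.nullMeasurableSet (by omega) hb.measure_lt_top.ne hR (by
      rw [h3]
      push_cast at h2'
      exact h2')
  rwa [h3] at h4

/-- Lower bound `r ^ n ≥ R ^ n - n R ^ (n - 1) (R - r)`. -/
theorem pow_diff {n : ℕ} (hn : 2 ≤ n) {r R : ℝ} (hr : 0 < r) (hR : 0 < R) :
    R ^ n - r ^ n ≤ n * R ^ (n - 1) * (R - r) := by
  have h1 := one_add_mul_le_pow (a := r / R - 1) (by
    have : 0 < r / R := by positivity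
    linarith) n
  have h2 : (1 + (r / R - 1)) ^ n = r ^ n / R ^ n := by
    rw [← div_pow]; congr 1; ring
  rw [h2, le_div_iff₀ (by positivity)] at h1
  have h3 : R ^ n = R * R ^ (n - 1) := by
    obtain ⟨m, rfl⟩ : ∃ m, n = m + 1 := ⟨n - 1, by omega⟩
    rw [Nat.add_sub_cancel, pow_succ]
    ring
  have h4 : (1 + (n : ℝ) * (r / R - 1)) * R ^ n = R ^ n - n * R ^ (n - 1) * (R - r) := by
    rw [h3]
    field_simp
    ring
  linarith

/-- **One radius.** If the Robin form on `Ω` with the parameters `A` and `κ` is nonnegative and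
`√κ p(√κ r) < A` for a radius `r ≤ R`, then the volume of `Ω` is not much smaller than that of the
ball of radius `R` whose sphere has the measure of `∂Ω`. -/
theorem one_radius {n : ℕ} (hn : 2 ≤ n) {Ω : Set (E n)} (hΩ : IsOpen Ω) (hne : Ω.Nonempty)
    (hb : Bornology.IsBounded Ω) (hfin : surf n (frontier Ω) < ⊤) {R : ℝ} (hR : 0 < R)
    (hper : (surf n (frontier Ω)).toReal = n * volume.real (ball (0 : E n) 1) * R ^ (n - 1))
    {A κ : ℝ} (hκ : 0 < κ)
    (hco : ∀ u : E n → ℝ, ContDiff ℝ 1 u → A * (∫ x in frontier Ω, u x ^ 2 ∂(surf n)) ≤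
      (∫ x in Ω, ‖fderiv ℝ u x‖ ^ 2) + κ * ∫ x in Ω, u x ^ 2)
    {p : ℝ → ℝ} (hpc : Continuous p)
    (hp : ∀ κ : ℝ, 0 < κ → Prof n κ (fun r => Real.sqrt κ * p (Real.sqrt κ * r))) {r : ℝ}
    (hr : 0 < r) (hrR : r ≤ R) (hA : Real.sqrt κ * p (Real.sqrt κ * r) < A) {B s₀ : ℝ}
    (hs₀ : Real.sqrt κ * r ≤ s₀) (hB0 : 0 ≤ B) (hB : TT n 1 p s₀ - 1 ≤ ((n : ℝ) - 1) * B) :
    volume.real (ball (0 : E n) 1) * R ^ n - volume.real Ω ≤
      volume.real (ball (0 : E n) 1) * (1 + n * B) * (n * R ^ (n - 1)) * (R - r) := by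
  have hn0 : (2:ℝ) ≤ n := by exact_mod_cast hn
  have hn1 : 0 < (n : ℝ) - 1 := by linarith
  have hω := vol_one_pos (n := n)
  set ω := volume.real (ball (0 : E n) 1) with hωdef
  have hp1 : Prof n 1 p := by simpa using hp 1 one_pos
  have h1 := rough0 hn hΩ hne hb hfin hκ hco hpc hp hr hA
  rw [hper] at h1
  have hsκ : 0 < Real.sqrt κ := Real.sqrt_pos.2 hκ
  have hx0 : 0 < Real.sqrt κ * r := by positivity
  have hTm : TT n 1 p (Real.sqrt κ * r) ≤ TT n 1 p s₀ :=
    hp1.TT_mono hn hx0 (lt_of_lt_of_le hx0 hs₀) hs₀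
  set T := TT n 1 p (Real.sqrt κ * r) with hT
  set X := (1 - T) / ((n : ℝ) - 1) with hX
  have hXB : -B ≤ X := by
    rw [hX, le_div_iff₀ hn1]
    nlinarith
  have hRn : R ^ n = R * R ^ (n - 1) := by
    obtain ⟨m, rfl⟩ : ∃ m, n = m + 1 := ⟨n - 1, by omega⟩
    rw [Nat.add_sub_cancel, pow_succ]
    ring
  have hrn : r ^ n = r * r ^ (n - 1) := by
    obtain ⟨m, rfl⟩ : ∃ m, n = m + 1 := ⟨n - 1, by omega⟩
    rw [Nat.add_sub_cancel, pow_succ]
    ring
  have hpw : r ^ (n - 1) ≤ R ^ (n - 1) := pow_le_pow_left₀ hr.le hrR _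
  have e1 : ω * (n * (r ^ n / n - r ^ n / ((n : ℝ) - 1) * (1 - T))) =
      ω * r ^ n - n * ω * (r * r ^ (n - 1)) * X := by
    rw [hX, ← hrn]
    field_simp
  have e2 : ((A - Real.sqrt κ * p (Real.sqrt κ * r)) / κ + r / ((n : ℝ) - 1) * (1 - T)) *
      (n * ω * R ^ (n - 1)) = (A - Real.sqrt κ * p (Real.sqrt κ * r)) / κ *
      (n * ω * R ^ (n - 1)) + r * X * (n * ω * R ^ (n - 1)) := by
    rw [hX]; ring
  rw [e1, e2] at h1
  have h4 : 0 ≤ (A - Real.sqrt κ * p (Real.sqrt κ * r)) / κ * (n * ω * R ^ (n - 1)) := by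
    have : 0 < A - Real.sqrt κ * p (Real.sqrt κ * r) := by linarith
    positivity
  have h5 : ω * r ^ n + r * X * (n * ω * (R ^ (n - 1) - r ^ (n - 1))) ≤ volume.real Ω := by
    linarith
  have h6 : 0 ≤ n * ω * (R ^ (n - 1) - r ^ (n - 1)) := by
    have : 0 ≤ R ^ (n - 1) - r ^ (n - 1) := by linarith
    positivity
  have h7 : -(r * B * (n * ω * (R ^ (n - 1) - r ^ (n - 1)))) ≤
      r * X * (n * ω * (R ^ (n - 1) - r ^ (n - 1))) := by
    have : -(r * B) ≤ r * X := by nlinarith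
    calc -(r * B * (n * ω * (R ^ (n - 1) - r ^ (n - 1))))
        = (-(r * B)) * (n * ω * (R ^ (n - 1) - r ^ (n - 1))) := by ring
      _ ≤ _ := mul_le_mul_of_nonneg_right this h6
  have h8 : r * (R ^ (n - 1) - r ^ (n - 1)) ≤ R ^ n - r ^ n := by
    rw [hRn, hrn]
    have : 0 ≤ (R - r) * R ^ (n - 1) := mul_nonneg (by linarith) (by positivity)
    nlinarith
  have h9 := pow_diff hn hr hR
  have h10 : r * B * (n * ω * (R ^ (n - 1) - r ^ (n - 1))) ≤ ω * (n * B) * (R ^ n - r ^ n) := by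
    calc r * B * (n * ω * (R ^ (n - 1) - r ^ (n - 1)))
        = ω * (n * B) * (r * (R ^ (n - 1) - r ^ (n - 1))) := by ring
      _ ≤ _ := mul_le_mul_of_nonneg_left h8 (by positivity)
  calc ω * R ^ n - volume.real Ω ≤ ω * (1 + n * B) * (R ^ n - r ^ n) := by linarith
    _ ≤ ω * (1 + n * B) * (n * R ^ (n - 1) * (R - r)) :=
        mul_le_mul_of_nonneg_left h9 (by positivity)
    _ = _ := by ring

/-- A constant for `κ` close to the value `κB` of the ball. -/
theorem near {n : ℕ} (hn : 2 ≤ n) {p : ℝ → ℝ} (hpc : Continuous p)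
    (hp : ∀ κ : ℝ, 0 < κ → Prof n κ (fun r => Real.sqrt κ * p (Real.sqrt κ * r))) {R A κB : ℝ}
    (hR : 0 < R) (hκB : 0 < κB) (hκA : Real.sqrt κB * p (Real.sqrt κB * R) = A) :
    ∃ ε C : ℝ, 0 < ε ∧ 0 < C ∧ ∀ κ : ℝ, κB < κ → κ ≤ κB + ε →
      ∀ Ω : Set (E n), IsOpen Ω → Ω.Nonempty → Bornology.IsBounded Ω →
      surf n (frontier Ω) < ⊤ →
      (surf n (frontier Ω)).toReal = n * volume.real (ball (0 : E n) 1) * R ^ (n - 1) →
      (∀ u : E n → ℝ, ContDiff ℝ 1 u → A * (∫ x in frontier Ω, u x ^ 2 ∂(surf n)) ≤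
        (∫ x in Ω, ‖fderiv ℝ u x‖ ^ 2) + κ * ∫ x in Ω, u x ^ 2) →
      volume.real (ball (0 : E n) 1) * R ^ n - volume.real Ω ≤ C * (κ - κB) := by
  have hn0 : (2:ℝ) ≤ n := by exact_mod_cast hn
  have hn1 : 0 < (n : ℝ) - 1 := by linarith
  have hω := vol_one_pos (n := n)
  set ω := volume.real (ball (0 : E n) 1) with hωdef
  have hp1 : Prof n 1 p := by simpa using hp 1 one_pos
  set kB := Real.sqrt κB with hkB
  have hkB0 : 0 < kB := Real.sqrt_pos.2 hκB
  have hkBs : kB * kB = κB := Real.mul_self_sqrt hκB.le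
  set s₀ := kB * R with hs₀
  have hs₀0 : 0 < s₀ := by positivity
  have hps₀ : 0 < p s₀ := hp1.pos _ hs₀0
  set D := 1 - p s₀ ^ 2 - ((n : ℝ) - 1) / s₀ * p s₀ with hD
  have hD0 : 0 < D := hp1.dpos s₀ hs₀0
  have hder : HasDerivAt p D s₀ := hp1.deriv s₀ hs₀0
  -- the linear bound below `s₀`
  obtain ⟨η, hη, hlin⟩ : ∃ η : ℝ, 0 < η ∧ ∀ s : ℝ, s₀ - η < s → s < s₀ →
      p s ≤ p s₀ - D / 2 * (s₀ - s) := by
    have h1 : Tendsto (slope p s₀) (𝓝[≠] s₀) (𝓝 D) := hasDerivAt_iff_tendsto_slope.1 hder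
    have h2 : ∀ᶠ s in 𝓝[≠] s₀, D / 2 < slope p s₀ s := h1.eventually (lt_mem_nhds (by linarith))
    rw [eventually_nhdsWithin_iff, Metric.eventually_nhds_iff] at h2
    obtain ⟨η, hη, h⟩ := h2
    refine ⟨η, hη, fun s hs1 hs2 => ?_⟩
    have h3 := h (y := s) (by rw [Real.dist_eq, abs_lt]; constructor <;> linarith) hs2.ne
    rw [slope_def_field] at h3
    have h4 : s - s₀ < 0 := by linarith
    rw [lt_div_iff_of_neg h4] at h3
    linarith
  set B := max 0 (TT n 1 p s₀ - 1) / ((n : ℝ) - 1) with hB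
  have hB0 : 0 ≤ B := div_nonneg (le_max_left _ _) hn1.le
  have hB1 : TT n 1 p s₀ - 1 ≤ ((n : ℝ) - 1) * B := by
    rw [hB, mul_div_cancel₀ _ hn1.ne']
    exact le_max_right _ _
  set M := 4 * p s₀ / (D * kB) with hM
  have hM0 : 0 < M := by positivity
  set C1 := (R + M) / kB with hC1
  have hC10 : 0 < C1 := by positivity
  set K := ω * (1 + n * B) * (n * R ^ (n - 1)) with hK
  have hK0 : 0 < K := by
    have : (0:ℝ) < n := by linarith
    positivity
  set ε₁ := min η s₀ / (2 * M) with hε₁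
  have hε₁0 : 0 < ε₁ := by
    have : 0 < min η s₀ := lt_min hη hs₀0
    positivity
  refine ⟨ε₁ * kB, K * C1 / kB, by positivity, by positivity, ?_⟩
  intro κ hκ1 hκ2 Ω hΩ hne hb hfin hper hco
  have hκ0 : 0 < κ := hκB.trans hκ1
  set k := Real.sqrt κ with hk
  have hk0 : 0 < k := Real.sqrt_pos.2 hκ0
  have hks : k * k = κ := Real.mul_self_sqrt hκ0.le
  have hkk : kB < k := Real.sqrt_lt_sqrt hκB.le hκ1
  have hkd : (k - kB) * kB ≤ κ - κB := by nlinarith
  have hkd1 : k - kB ≤ ε₁ := by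
    have h1 : (k - kB) * kB ≤ ε₁ * kB := by linarith
    exact le_of_mul_le_mul_right h1 hkB0
  set τ := M * (k - kB) with hτ
  have hτ0 : 0 < τ := mul_pos hM0 (by linarith)
  have hτ1 : τ ≤ min η s₀ / 2 := by
    calc τ ≤ M * ε₁ := mul_le_mul_of_nonneg_left hkd1 hM0.le
      _ = min η s₀ / 2 := by rw [hε₁]; field_simp
  have hτη : τ < η := by
    have := min_le_left η s₀
    linarith
  have hτs : τ < s₀ := by
    have := min_le_right η s₀
    linarith
  set r := (s₀ - τ) / k with hr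
  have hr0 : 0 < r := div_pos (by linarith) hk0
  have hkr : k * r = s₀ - τ := by rw [hr]; field_simp
  have hrR : r ≤ R := by
    rw [hr, div_le_iff₀ hk0]
    nlinarith
  have hp2 := hlin (s₀ - τ) (by linarith) (by linarith)
  have hpA : k * p (k * r) < A := by
    rw [hkr, ← hκA]
    have h1 : p (s₀ - τ) ≤ p s₀ - D / 2 * τ := by
      have : s₀ - (s₀ - τ) = τ := by ring
      rwa [this] at hp2
    have h2 : k * p (s₀ - τ) ≤ k * (p s₀ - D / 2 * τ) := mul_le_mul_of_nonneg_left h1 hk0.le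
    have h3 : k * (D / 2 * τ) = (k / kB) * (2 * p s₀ * (k - kB)) := by
      rw [hτ, hM]; field_simp; ring
    have h4 : 1 ≤ k / kB := by rw [le_div_iff₀ hkB0]; linarith
    have h5 : 0 < 2 * p s₀ * (k - kB) := by
      have : 0 < k - kB := by linarith
      positivity
    have h6 : 2 * p s₀ * (k - kB) ≤ (k / kB) * (2 * p s₀ * (k - kB)) := by nlinarith
    have h7 : 0 < p s₀ * (k - kB) := mul_pos hps₀ (by linarith)
    nlinarith
  have h1 := one_radius hn hΩ hne hb hfin hR hper hκ0 hco hpc hp hr0 hrR hpA (B := B) (s₀ := s₀)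
    (by rw [← hk, hkr]; linarith) hB0 hB1
  have h2 : R - r ≤ C1 * (k - kB) := by
    have h3 : (R - r) * k = (R + M) * (k - kB) := by
      rw [sub_mul, mul_comm r k, hkr, hτ, hs₀]; ring
    have h4 : R - r = (R + M) * (k - kB) / k := by
      rw [eq_div_iff hk0.ne', h3]
    rw [h4, hC1, div_mul_eq_mul_div]
    apply div_le_div_of_nonneg_left _ hkB0 hkk.le
    exact mul_nonneg (by positivity) (by linarith)
  calc ω * R ^ n - volume.real Ω ≤ K * (R - r) := h1
    _ ≤ K * (C1 * (k - kB)) := mul_le_mul_of_nonneg_left h2 hK0.le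
    _ = K * C1 / kB * ((k - kB) * kB) := by field_simp
    _ ≤ K * C1 / kB * (κ - κB) := mul_le_mul_of_nonneg_left hkd (by positivity)

/-- **The stability estimate for the Robin form.** -/
theorem stab_form {n : ℕ} (hn : 2 ≤ n) {p : ℝ → ℝ} (hpc : Continuous p)
    (hp : ∀ κ : ℝ, 0 < κ → Prof n κ (fun r => Real.sqrt κ * p (Real.sqrt κ * r))) {R A κB : ℝ}
    (hR : 0 < R) (hκB : 0 < κB) (hκA : Real.sqrt κB * p (Real.sqrt κB * R) = A) :
    ∃ C : ℝ, 0 < C ∧ ∀ κ : ℝ, 0 < κ →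
      ∀ Ω : Set (E n), IsOpen Ω → Ω.Nonempty → Bornology.IsBounded Ω →
      surf n (frontier Ω) < ⊤ →
      (surf n (frontier Ω)).toReal = n * volume.real (ball (0 : E n) 1) * R ^ (n - 1) →
      (∀ u : E n → ℝ, ContDiff ℝ 1 u → A * (∫ x in frontier Ω, u x ^ 2 ∂(surf n)) ≤
        (∫ x in Ω, ‖fderiv ℝ u x‖ ^ 2) + κ * ∫ x in Ω, u x ^ 2) →
      κB ≤ κ ∧ volume.real (ball (0 : E n) 1) * R ^ n - volume.real Ω ≤ C * (κ - κB) := by
  have hω := vol_one_pos (n := n)
  set ω := volume.real (ball (0 : E n) 1) with hωdef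
  have hp1 : Prof n 1 p := by simpa using hp 1 one_pos
  obtain ⟨ε, C₀, hε, hC₀, hnear⟩ := near hn hpc hp hR hκB hκA
  refine ⟨max C₀ (ω * R ^ n / ε), lt_max_of_lt_left hC₀, ?_⟩
  intro κ hκ Ω hΩ hne hb hfin hper hco
  have hge : κB ≤ κ := by
    by_contra hcon
    push Not at hcon
    have hκA' : Real.sqrt κ * p (Real.sqrt κ * R) < A := by
      rw [← hκA]
      have h1 : Real.sqrt κ < Real.sqrt κB := Real.sqrt_lt_sqrt hκ.le hcon
      have h2 : 0 < Real.sqrt κ := Real.sqrt_pos.2 hκ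
      have h3 : p (Real.sqrt κ * R) < p (Real.sqrt κB * R) := by
        apply hp1.mono
        · exact (mul_pos h2 hR).le
        · exact (mul_pos (h2.trans h1) hR).le
        · exact mul_lt_mul_of_pos_right h1 hR
      have h4 := hp1.pos _ (mul_pos h2 hR)
      exact mul_lt_mul'' h1 h3 h2.le h4.le
    obtain ⟨u, hu, hlt⟩ := perimeter_key hn hΩ hne hb hfin hR hper hpc hp hκ hκA'
    exact absurd (hco u hu) (not_le.2 hlt)
  refine ⟨hge, ?_⟩
  set C := max C₀ (ω * R ^ n / ε) with hC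
  have hlim : ∀ κ' : ℝ, κ < κ' → ω * R ^ n - volume.real Ω ≤ C * (κ' - κB) := by
    intro κ' hκκ'
    have hco' : ∀ u : E n → ℝ, ContDiff ℝ 1 u → A * (∫ x in frontier Ω, u x ^ 2 ∂(surf n)) ≤
        (∫ x in Ω, ‖fderiv ℝ u x‖ ^ 2) + κ' * ∫ x in Ω, u x ^ 2 := by
      intro u hu
      have h1 := hco u hu
      have h2 : 0 ≤ ∫ x in Ω, u x ^ 2 := integral_nonneg fun x => sq_nonneg _
      nlinarith
    rcases le_or_gt κ' (κB + ε) with h | h
    · have h1 := hnear κ' (hge.trans_lt hκκ') h Ω hΩ hne hb hfin hper hco'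
      refine h1.trans (mul_le_mul_of_nonneg_right (le_max_left _ _) ?_)
      linarith
    · have h1 : 0 ≤ volume.real Ω := measureReal_nonneg
      have h2 : ω * R ^ n / ε * ε = ω * R ^ n := by field_simp
      have h3 : ω * R ^ n / ε * ε ≤ C * (κ' - κB) := by
        apply mul_le_mul (le_max_right _ _) (by linarith) hε.le
        exact (hC₀.le).trans (le_max_left _ _)
      linarith
  have ht : Tendsto (fun κ' : ℝ => C * (κ' - κB)) (𝓝[>] κ) (𝓝 (C * (κ - κB))) := by
    apply Tendsto.mono_left _ nhdsWithin_le_nhds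
    have : Continuous fun κ' : ℝ => C * (κ' - κB) := by fun_prop
    exact this.tendsto κ
  refine ge_of_tendsto ht ?_
  filter_upwards [self_mem_nhdsWithin] with κ' hκ'
  exact hlim κ' hκ'

/-- **Stability of the ball.** -/
theorem stab {n : ℕ} (hn : 2 ≤ n) {R α : ℝ} (hR : 0 < R) (hα : α < 0) :
    ∃ c : ℝ, 0 < c ∧ ∀ Ω : Set (E n), IsOpen Ω → Bornology.IsBounded Ω →
      surf n (frontier Ω) = surf n (frontier (ball (0 : E n) R)) →
      0 ≤ volume.real (ball (0 : E n) R) - volume.real Ω ∧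
      lam1 Ω α + ((c * (volume.real (ball (0 : E n) R) - volume.real Ω) : ℝ) : EReal) ≤
        lam1 (ball (0 : E n) R) α := by
  have : Nontrivial (E n) := by
    have : Nonempty (Fin n) := ⟨⟨0, by omega⟩⟩
    infer_instance
  obtain ⟨p, hpc, hp⟩ := prof_exists n hn
  have hp1 : Prof n 1 p := by simpa using hp 1 one_pos
  set A := -α with hA
  have hA0 : 0 < A := by rw [hA]; linarith
  obtain ⟨κB, hκB, hκBA⟩ := exists_kappa hn hp1 hR hA0
  obtain ⟨C, hC, hstab⟩ := stab_form hn hpc hp hR hκB hκBA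
  have hω := vol_one_pos (n := n)
  obtain ⟨hsf, hsr⟩ := surf_ball hn (0 : E n) hR
  have hball : ((-κB : ℝ) : EReal) ≤ lam1 (ball (0 : E n) R) α := by
    have h := lam1_ball_ge hn (hp κB hκB) hR (A := A) (le_of_eq hκBA.symm) (0 : E n)
    rwa [hA, neg_neg] at h
  have hvR := vol_ball_eq hn hR (0 : E n)
  refine ⟨1 / C, by positivity, ?_⟩
  intro Ω hΩ hb hper
  have hfin : surf n (frontier Ω) < ⊤ := by rw [hper]; exact hsf
  have hreal : (surf n (frontier Ω)).toReal =
      n * volume.real (ball (0 : E n) 1) * R ^ (n - 1) := by rw [hper, hsr]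
  have hne : Ω.Nonempty := by
    rw [nonempty_iff_ne_empty]
    rintro rfl
    rw [frontier_empty, measure_empty, ENNReal.toReal_zero] at hreal
    have : (0:ℝ) < n := by positivity
    have : 0 < n * volume.real (ball (0 : E n) 1) * R ^ (n - 1) := by positivity
    linarith
  have hvol := (vol_le hn hΩ hne hb hfin hR hreal.le).2
  rw [hvR]
  refine ⟨by linarith, ?_⟩
  set d := volume.real (ball (0 : E n) 1) * R ^ n - volume.real Ω with hd
  have hd0 : 0 ≤ d := by rw [hd]; linarith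
  refine le_trans ?_ hball
  by_contra hcon
  push Not at hcon
  -- `lam1 Ω > -κB - c d`
  have h1 : ((-κB - 1 / C * d : ℝ) : EReal) < lam1 Ω α := by
    by_contra h
    push Not at h
    have h2 : lam1 Ω α + ((1 / C * d : ℝ) : EReal) ≤
        ((-κB - 1 / C * d : ℝ) : EReal) + ((1 / C * d : ℝ) : EReal) := by gcongr
    rw [← EReal.coe_add, sub_add_cancel] at h2
    exact absurd hcon (not_lt.2 h2)
  obtain ⟨q, hq1, hq2⟩ := EReal.lt_iff_exists_real_btwn.1 h1
  have hq1' : -κB - 1 / C * d < q := by exact_mod_cast hq1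
  -- the eigenvalue of `Ω` is negative
  have hq0 : 0 < max (-q) (κB / 2) := lt_of_lt_of_le (by positivity) (le_max_right _ _)
  have hco := form_of_lam1 hΩ hb (κ := max (-q) (κB / 2)) (α := α) (by
    refine le_trans ?_ hq2.le
    apply EReal.coe_le_coe_iff.2
    have := le_max_left (-q) (κB / 2)
    linarith)
  obtain ⟨h3, h4⟩ := hstab _ hq0 Ω hΩ hne hb hfin hreal hco
  have h5 : max (-q) (κB / 2) = -q := by
    rcases le_max_iff.1 h3 with h | h
    · exact max_eq_left (by linarith)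
    · linarith
  rw [h5] at h3 h4
  have h6 : C * (-q - κB) < C * (1 / C * d) := mul_lt_mul_of_pos_left (by linarith) hC
  have h7 : C * (1 / C * d) = d := by field_simp
  rw [h7] at h6
  linarith

/-- The equation `√κ p(√κ R) = A` for two radii. -/
theorem kappa_anti {n : ℕ} {p : ℝ → ℝ} (hp1 : Prof n 1 p) {R R' A κ κ' : ℝ} (hR : 0 < R)
    (hR' : 0 < R') (hκ : 0 < κ) (hκ' : 0 < κ')
    (h : Real.sqrt κ * p (Real.sqrt κ * R) = A) (h' : Real.sqrt κ' * p (Real.sqrt κ' * R') = A)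
    (hRR : R' < R) : κ < κ' := by
  by_contra hcon
  push Not at hcon
  have h1 : Real.sqrt κ' ≤ Real.sqrt κ := Real.sqrt_le_sqrt hcon
  have h2 : 0 < Real.sqrt κ' := Real.sqrt_pos.2 hκ'
  have h3 : 0 < Real.sqrt κ := Real.sqrt_pos.2 hκ
  have h4 : Real.sqrt κ' * R' < Real.sqrt κ * R := by
    calc Real.sqrt κ' * R' < Real.sqrt κ' * R := mul_lt_mul_of_pos_left hRR h2
      _ ≤ Real.sqrt κ * R := mul_le_mul_of_nonneg_right h1 hR.le
  have h5 : p (Real.sqrt κ' * R') < p (Real.sqrt κ * R) := by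
    apply hp1.mono
    · exact (mul_pos h2 hR').le
    · exact (mul_pos h3 hR).le
    · exact h4
  have h6 := hp1.pos _ (mul_pos h2 hR')
  have : Real.sqrt κ' * p (Real.sqrt κ' * R') < Real.sqrt κ * p (Real.sqrt κ * R) := by
    calc Real.sqrt κ' * p (Real.sqrt κ' * R') < Real.sqrt κ' * p (Real.sqrt κ * R) :=
          mul_lt_mul_of_pos_left h5 h2
      _ ≤ Real.sqrt κ * p (Real.sqrt κ * R) :=
          mul_le_mul_of_nonneg_right h1 (h6.trans h5).le
  linarith

/-- **The inequality and its equality case**, for sets whose boundary has at most the measure of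
the sphere. -/
theorem main {n : ℕ} (hn : 2 ≤ n) {R α : ℝ} (hR : 0 < R) (hα : α < 0) {Ω : Set (E n)}
    (hΩ : IsOpen Ω) (hne : Ω.Nonempty) (hb : Bornology.IsBounded Ω)
    (hper : surf n (frontier Ω) ≤ surf n (frontier (ball (0 : E n) R))) :
    lam1 Ω α ≤ lam1 (ball (0 : E n) R) α ∧
      (lam1 Ω α = lam1 (ball (0 : E n) R) α → interior (closure Ω) = Ω →
        ∃ c : E n, Ω = ball c R) := by
  have : Nontrivial (E n) := by
    have : Nonempty (Fin n) := ⟨⟨0, by omega⟩⟩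
    infer_instance
  have hn0 : (2:ℝ) ≤ n := by exact_mod_cast hn
  obtain ⟨p, hpc, hp⟩ := prof_exists n hn
  have hp1 : Prof n 1 p := by simpa using hp 1 one_pos
  set A := -α with hA
  have hA0 : 0 < A := by rw [hA]; linarith
  have hω := vol_one_pos (n := n)
  obtain ⟨hsf, hsr⟩ := surf_ball hn (0 : E n) hR
  have hfin : surf n (frontier Ω) < ⊤ := lt_of_le_of_lt hper hsf
  set σ := (surf n (frontier Ω)).toReal with hσ
  -- the boundary has positive measure
  have hσ0 : 0 < σ := by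
    have hv0 : 0 < volume.real Ω := by
      rw [measureReal_def]
      exact ENNReal.toReal_pos (hΩ.measure_pos volume hne).ne' hb.measure_lt_top.ne
    set R₁ := (volume.real Ω / volume.real (ball (0 : E n) 1)) ^ ((n : ℝ)⁻¹) with hR₁
    have hR₁0 : 0 < R₁ := by positivity
    have h1 : volume.real Ω = volume.real (ball (0 : E n) R₁) := by
      rw [vol_ball_eq hn hR₁0, hR₁, Real.rpow_inv_natCast_pow (by positivity) (by omega)]
      field_simp
    have h2 := (isoper_open hn hΩ hne hb hfin hR₁0 h1).2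
    refine lt_of_lt_of_le ?_ h2
    have : (0:ℝ) < n := by linarith
    positivity
  -- the radius of the sphere with the measure of the boundary
  set ω := volume.real (ball (0 : E n) 1) with hωdef
  have hnω : 0 < n * ω := by
    have : (0:ℝ) < n := by linarith
    positivity
  set R' := (σ / (n * ω)) ^ (((n - 1 : ℕ) : ℝ)⁻¹) with hR'
  have hR'0 : 0 < R' := by positivity
  have hR'p : R' ^ (n - 1) = σ / (n * ω) := by
    rw [hR']
    exact Real.rpow_inv_natCast_pow (by positivity) (by omega)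
  have hσR' : σ = n * ω * R' ^ (n - 1) := by
    rw [hR'p]
    field_simp
  obtain ⟨hsf', hsr'⟩ := surf_ball hn (0 : E n) hR'0
  have hper' : surf n (frontier Ω) = surf n (frontier (ball (0 : E n) R')) := by
    rw [← ENNReal.ofReal_toReal hfin.ne, ← ENNReal.ofReal_toReal hsf'.ne, hsr', ← hσ, hσR']
  have hRR' : R' ≤ R := by
    have h1 : σ ≤ n * ω * R ^ (n - 1) := by
      rw [← hsr]
      exact ENNReal.toReal_mono hsf.ne hper
    rw [hσR'] at h1
    have h2 := le_of_mul_le_mul_left h1 hnω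
    exact le_of_pow_le_pow_left₀ (by omega) hR.le h2
  obtain ⟨κ, hκ, hκA⟩ := exists_kappa hn hp1 hR hA0
  obtain ⟨κ', hκ', hκA'⟩ := exists_kappa hn hp1 hR'0 hA0
  have hball : ((-κ : ℝ) : EReal) ≤ lam1 (ball (0 : E n) R) α := by
    have h := lam1_ball_ge hn (hp κ hκ) hR (A := A) (le_of_eq hκA.symm) (0 : E n)
    rwa [hA, neg_neg] at h
  obtain ⟨C, hC, hstab⟩ := stab_form hn hpc hp hR'0 hκ' hκA'
  have hle' : lam1 Ω α ≤ ((-κ' : ℝ) : EReal) := by
    by_contra hcon
    push Not at hcon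
    obtain ⟨q, hq1, hq2⟩ := EReal.lt_iff_exists_real_btwn.1 hcon
    have hq1' : -κ' < q := by exact_mod_cast hq1
    have hq0 : 0 < max (-q) (κ' / 2) := lt_of_lt_of_le (by positivity) (le_max_right _ _)
    have hco := form_of_lam1 hΩ hb (κ := max (-q) (κ' / 2)) (α := α) (by
      refine le_trans ?_ hq2.le
      apply EReal.coe_le_coe_iff.2
      have := le_max_left (-q) (κ' / 2)
      linarith)
    obtain ⟨h3, -⟩ := hstab _ hq0 Ω hΩ hne hb hfin hσR' hco
    rcases le_max_iff.1 h3 with h | h <;> linarith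
  have hκκ' : κ ≤ κ' := by
    rcases hRR'.eq_or_lt with h | h
    · rw [h] at hκA'
      by_contra hcon
      push Not at hcon
      have h1 : Real.sqrt κ' < Real.sqrt κ := Real.sqrt_lt_sqrt hκ'.le hcon
      have h2 : 0 < Real.sqrt κ' := Real.sqrt_pos.2 hκ'
      have h3 : p (Real.sqrt κ' * R) < p (Real.sqrt κ * R) := by
        apply hp1.mono
        · exact (mul_pos h2 hR).le
        · exact (mul_pos (h2.trans h1) hR).le
        · exact mul_lt_mul_of_pos_right h1 hR
      have h4 := hp1.pos _ (mul_pos h2 hR)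
      have := mul_lt_mul'' h1 h3 h2.le h4.le
      linarith
    · exact (kappa_anti hp1 hR hR'0 hκ hκ' hκA hκA' h).le
  have hle2 : lam1 Ω α ≤ ((-κ : ℝ) : EReal) :=
    hle'.trans (EReal.coe_le_coe_iff.2 (by linarith))
  refine ⟨hle2.trans hball, ?_⟩
  intro heq hint
  -- equal radii
  have h1 : ((-κ : ℝ) : EReal) ≤ ((-κ' : ℝ) : EReal) := by
    calc ((-κ : ℝ) : EReal) ≤ lam1 (ball (0 : E n) R) α := hball
      _ = lam1 Ω α := heq.symm
      _ ≤ _ := hle'
  have h2 : κ' ≤ κ := by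
    have := EReal.coe_le_coe_iff.1 h1
    linarith
  have hReq : R' = R := by
    rcases hRR'.eq_or_lt with h | h
    · exact h
    · have := kappa_anti hp1 hR hR'0 hκ hκ' hκA hκA' h
      linarith
  -- the form with the parameter `κ'`
  have hco := form_of_lam1 hΩ hb (κ := κ') (α := α) (by
    calc ((-κ' : ℝ) : EReal) ≤ ((-κ : ℝ) : EReal) := EReal.coe_le_coe_iff.2 (by linarith)
      _ ≤ lam1 (ball (0 : E n) R) α := hball
      _ = lam1 Ω α := heq.symm)
  obtain ⟨-, h3⟩ := hstab κ' hκ' Ω hΩ hne hb hfin hσR' hco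
  rw [sub_self, mul_zero, hReq] at h3
  obtain ⟨h4, h5⟩ := vol_le hn hΩ hne hb hfin hR (by rw [← hσ, hσR', hReq])
  exact JI.ball_of_per n hn Ω hΩ hb hint R hR (by
    rw [vol_ball_eq hn hR (0 : E n)]; linarith) h4

end Pool.Agent.KS6_36.RB
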